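import Pool.Agent.Lib.MP_c8757e_W3.Ell
import Pool.Agent.Lib.MP_c8757e_W3.CcPos
import Pool.Agent.Lib.MP_c8757e_W3.PotPde
import Pool.Agent.Lib.MP_c8757e_W3.Gauss
import Pool.Agent.Lib.MP_c8757e_W3.Floq

/-! MP_c8757e_mp: a smooth periodic operator `div (A ∇) + V` on `ℝ³` with a flat Floquet band over
the hyperplane `ℂ² × {0}`, and an eigenfunction with Gaussian decay on the waveguide `ℝ² × 𝕋`. -/

namespace Pool.Agent.Results.MP_c8757e_mp.FermiPlane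

open Pool.Agent.Lib.MP_c8757e_mp

/-- `div (A ∇ u)`, pointwise -/
noncomputable def divGrad {d : ℕ} (A : E d → Matrix (Fin d) (Fin d) ℝ) (u : E d → ℂ)
    (x : E d) : ℂ :=
  ∑ i, pd i (fun y => ∑ j, (A y i j : ℂ) * pd j u y) x

/-- the function `x ↦ f (x₀ + i x₁) S (x)` -/
noncomputable def twist (S : E 3 → ℂ) (f : ℂ → ℂ) (x : E 3) : ℂ :=
  f ((x 0 : ℂ) + Complex.I * (x 1 : ℂ)) * S x

/-- There are smooth `ℤ³`-periodic coefficients on `ℝ³`, a symmetric uniformly elliptic matrix `A`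
and a real function `V`, and a smooth function `S`, such that `div (A ∇ u) + V u = 0` holds for all
the functions `u = f (x₀ + i x₁) S`, `f` entire. One of them is nonzero, periodic in `x₂`, and
decays with its gradient like a Gaussian in `x₀` and `x₁`; and for every `k ∈ ℂ²` one of them is a
nonzero Floquet solution with quasimomentum `k` in `x₀, x₁` and `0` in `x₂`. -/
theorem result : ∃ (A : E 3 → Matrix (Fin 3) (Fin 3) ℝ) (V : E 3 → ℝ) (c : ℝ) (S : E 3 → ℂ),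
    (∀ i j, ContDiff ℝ (⊤ : ℕ∞) fun x => A x i j) ∧ (∀ x, (A x).IsSymm) ∧ Periodic A ∧
    EllipticWith A c ∧ ContDiff ℝ (⊤ : ℕ∞) V ∧ Periodic V ∧ ContDiff ℝ (⊤ : ℕ∞) S ∧
    (∀ f : ℂ → ℂ, Differentiable ℂ f → ∀ x,
      divGrad A (twist S f) x + (V x : ℂ) * twist S f x = 0) ∧
    (∃ f : ℂ → ℂ, Differentiable ℂ f ∧ twist S f ≠ 0 ∧
      (∀ (x : E 3) (n : Fin 3 → ℤ), n 0 = 0 → n 1 = 0 →
        twist S f (x + latE n) = twist S f x) ∧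
      ∃ M : ℝ, ∀ x : E 3, ‖twist S f x‖ ≤ M * Real.exp (-(x 0 ^ 2 + x 1 ^ 2)) ∧
        ∀ j, ‖pd j (twist S f) x‖ ≤ M * Real.exp (-(x 0 ^ 2 + x 1 ^ 2))) ∧
    (∀ k : Fin 2 → ℂ, ∃ f : ℂ → ℂ, Differentiable ℂ f ∧ twist S f ≠ 0 ∧
      ∀ (x : E 3) (n : Fin 3 → ℤ), twist S f (x + latE n) =
        Complex.exp (2 * Real.pi * Complex.I * (k 0 * (n 0 : ℂ) + k 1 * (n 1 : ℂ))) *
          twist S f x) := by
  obtain ⟨K, c0, hc0, hc⟩ := Pool.Agent.Lib.MP_c8757e_W3.exists_K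
  obtain ⟨Bb, _, hB0⟩ := Pool.Agent.Lib.MP_c8757e_W3.per_bdd
    (Pool.Agent.Lib.MP_c8757e_W3.B0_smooth).continuous Pool.Agent.Lib.MP_c8757e_W3.B0_lat
  obtain ⟨Bc, _, hB1⟩ := Pool.Agent.Lib.MP_c8757e_W3.per_bdd
    (Pool.Agent.Lib.MP_c8757e_W3.B1_smooth).continuous Pool.Agent.Lib.MP_c8757e_W3.B1_lat
  obtain ⟨e, he⟩ := Pool.Agent.Lib.MP_c8757e_W3.AA_ell (B := max Bb Bc)
    (fun x => (hB0 x).trans (le_max_left _ _)) (fun x => (hB1 x).trans (le_max_right _ _)) hc0 hc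
  refine ⟨_, Pool.Agent.Lib.MP_c8757e_W3.VV K, e, Pool.Agent.Lib.MP_c8757e_W3.S,
    Pool.Agent.Lib.MP_c8757e_W3.AA_smooth Pool.Agent.Lib.MP_c8757e_W3.B0_smooth
      Pool.Agent.Lib.MP_c8757e_W3.B1_smooth (Pool.Agent.Lib.MP_c8757e_W3.cc_smooth K),
    Pool.Agent.Lib.MP_c8757e_W3.AA_symm,
    Pool.Agent.Lib.MP_c8757e_W3.AA_per Pool.Agent.Lib.MP_c8757e_W3.B0_lat
      Pool.Agent.Lib.MP_c8757e_W3.B1_lat (Pool.Agent.Lib.MP_c8757e_W3.cc_lat K), he,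
    Pool.Agent.Lib.MP_c8757e_W3.VV_smooth K,
    fun x n => Pool.Agent.Lib.MP_c8757e_W3.VV_lat K n x,
    Pool.Agent.Lib.MP_c8757e_W3.S_smooth, fun f hf x => ?_,
    ⟨Pool.Agent.Lib.MP_c8757e_W3.fG, Pool.Agent.Lib.MP_c8757e_W3.fG_diff,
      Pool.Agent.Lib.MP_c8757e_W3.gauss_ne,
      fun x n h0 h1 => Pool.Agent.Lib.MP_c8757e_W3.sol_per _ x n h0 h1,
      Pool.Agent.Lib.MP_c8757e_W3.gauss_bd⟩,
    fun k => ⟨Pool.Agent.Lib.MP_c8757e_W3.fk k, Pool.Agent.Lib.MP_c8757e_W3.fk_diff k,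
      Pool.Agent.Lib.MP_c8757e_W3.fk_ne k,
      fun x n => Pool.Agent.Lib.MP_c8757e_W3.fk_floquet k x n⟩⟩
  have h1 := Pool.Agent.Lib.MP_c8757e_W3.twist Pool.Agent.Lib.MP_c8757e_W3.B0_smooth
    Pool.Agent.Lib.MP_c8757e_W3.B1_smooth (Pool.Agent.Lib.MP_c8757e_W3.cc_smooth K)
    Pool.Agent.Lib.MP_c8757e_W3.S_smooth Pool.Agent.Lib.MP_c8757e_W3.first_order hf x
  have h2 := Pool.Agent.Lib.MP_c8757e_W3.VV_pde K x
  have h3 : divGrad (Pool.Agent.Lib.MP_c8757e_W3.AA Pool.Agent.Lib.MP_c8757e_W3.B0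
      Pool.Agent.Lib.MP_c8757e_W3.B1 (Pool.Agent.Lib.MP_c8757e_W3.cc K))
      (twist Pool.Agent.Lib.MP_c8757e_W3.S f) x = f (Pool.Agent.Lib.MP_c8757e_W3.zz x) *
        Pool.Agent.Lib.MP_c8757e_W3.dvA Pool.Agent.Lib.MP_c8757e_W3.B0
          Pool.Agent.Lib.MP_c8757e_W3.B1 (Pool.Agent.Lib.MP_c8757e_W3.cc K)
          Pool.Agent.Lib.MP_c8757e_W3.S x := h1
  have h4 : twist Pool.Agent.Lib.MP_c8757e_W3.S f x =
      f (Pool.Agent.Lib.MP_c8757e_W3.zz x) * Pool.Agent.Lib.MP_c8757e_W3.S x := rfl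
  rw [h3, h4]
  linear_combination f (Pool.Agent.Lib.MP_c8757e_W3.zz x) * h2

end Pool.Agent.Results.MP_c8757e_mp.FermiPlane
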