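import Pool.Agent.Lib.MP_c8757e_mp.GFin

/-!
# MP_c8757e_mp: generic potentials

For every fixed periodic elliptic `A` the potentials `V` for which `div (A grad) + V` has an eigenvalue
form a meager set.
-/

open MeasureTheory

namespace Pool.Agent.Results.MP_c8757e_mp.GenericPotential

open Pool.Agent.Lib.MP_c8757e_mp

theorem result {d : ℕ} (hd : 0 < d) (A : E d → Matrix (Fin d) (Fin d) ℝ)
    (hA : ∀ i j, Measurable fun x => A x i j) (bA : ∃ C, ∀ x i j, |A x i j| ≤ C)
    (pA : Periodic A) (sA : ∀ x, (A x).IsSymm) (c : ℝ) (eA : EllipticWith A c)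
    {X : Type*} [AddCommGroup X] [Module ℝ X] [TopologicalSpace X] [IsTopologicalAddGroup X]
    [ContinuousSMul ℝ X] [BaireSpace X] (j : X →L[ℝ] C(UnitAddTorus (Fin d), ℝ))
    (hj : DenseRange j) :
    IsMeagre {V : X | ∃ μ : ℝ,
      IsEigenvalue A (fun x => j V (fun i => (x i : UnitAddCircle))) μ} :=
  generic_potential hd A hA bA pA sA c eA j hj

end Pool.Agent.Results.MP_c8757e_mp.GenericPotential
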