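import Pool.Agent.Lib.MP_c8757e_mp.Good

/-!
# MP_c8757e_mp: eigenvalues on lines of periodic elliptic operators

Let `L₁ = div (A₁ grad) + V₁` be the Laplacian or any periodic elliptic operator without eigenvalues.
For EVERY periodic symmetric `A₀` and `V₀` the set of real `t` such that `A₀ + t A₁` is elliptic and
`div ((A₀ + t A₁) grad) + V₀ + t V₁` has an eigenvalue is countable.
-/

open MeasureTheory

namespace Pool.Agent.Results.MP_c8757e_mp.LineLaw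

open Pool.Agent.Lib.MP_c8757e_mp

theorem result {d : ℕ} (hd : 0 < d) (A₀ A₁ : E d → Matrix (Fin d) (Fin d) ℝ) (V₀ V₁ : E d → ℝ)
    (hA₀ : ∀ i j, Measurable fun x => A₀ x i j) (hA₁ : ∀ i j, Measurable fun x => A₁ x i j)
    (hV₀ : Measurable V₀) (hV₁ : Measurable V₁)
    (bA₀ : ∃ C, ∀ x i j, |A₀ x i j| ≤ C) (bA₁ : ∃ C, ∀ x i j, |A₁ x i j| ≤ C)
    (bV₀ : ∃ C, ∀ x, |V₀ x| ≤ C) (bV₁ : ∃ C, ∀ x, |V₁ x| ≤ C)
    (pA₀ : Periodic A₀) (pA₁ : Periodic A₁) (pV₀ : Periodic V₀) (pV₁ : Periodic V₁)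
    (sA₀ : ∀ x, (A₀ x).IsSymm) (sA₁ : ∀ x, (A₁ x).IsSymm)
    (h₁ : ((∀ x, A₁ x = 1) ∧ ∀ x, V₁ x = 0) ∨
      ((∃ c, EllipticWith A₁ c) ∧ ∀ μ, ¬ IsEigenvalue A₁ V₁ μ)) :
    {t : ℝ | (∃ c, EllipticWith (fun x => A₀ x + t • A₁ x) c) ∧
      ∃ μ, IsEigenvalue (fun x => A₀ x + t • A₁ x) (fun x => V₀ x + t * V₁ x) μ}.Countable := by
  rcases h₁ with ⟨h1, h2⟩ | ⟨h1, h2⟩
  · have e1 : A₁ = fun _ => 1 := funext h1
    have e2 : V₁ = fun _ => 0 := funext h2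
    refine good_direction A₀ A₁ V₀ V₁ hA₀ hA₁ hV₀ hV₁ bA₀ bA₁ bV₀ bV₁ pA₀ pA₁ pV₀ pV₁ sA₀ sA₁
      ⟨1, one_pos, fun x ξ => ?_⟩ ?_
    · rw [h1 x, one_mul]
      refine Finset.sum_le_sum fun j _ => ?_
      rw [Finset.sum_eq_single j]
      · rw [Matrix.one_apply_eq, one_mul, sq]
      · intro l _ hl
        rw [Matrix.one_apply_ne (Ne.symm hl), zero_mul, zero_mul]
      · intro h
        exact absurd (Finset.mem_univ j) h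
    · intro μ
      rw [e1, e2]
      exact laplace_not_isEigenvalue hd μ
  · exact good_direction A₀ A₁ V₀ V₁ hA₀ hA₁ hV₀ hV₁ bA₀ bA₁ bV₀ bV₁ pA₀ pA₁ pV₀ pV₁ sA₀ sA₁ h1 h2

end Pool.Agent.Results.MP_c8757e_mp.LineLaw
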