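import Pool.Agent.Lib.MP_c8757e_WG.Two

/-! MP_c8757e_mp: a smooth periodic operator `div (A ∇)` on `ℝ⁴` with a flat Floquet band over
`ℂ² × {0}`, and an eigenfunction with Gaussian decay on the waveguide `ℝ² × 𝕋²`. -/

namespace Pool.Agent.Results.MP_c8757e_mp.WaveguideEigenvalue

open Pool.Agent.Lib.MP_c8757e_mp

/-- `div (A ∇ u)`, pointwise -/
noncomputable def divGrad {d : ℕ} (A : E d → Matrix (Fin d) (Fin d) ℝ) (u : E d → ℂ)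
    (x : E d) : ℂ :=
  ∑ i, pd i (fun y => ∑ j, (A y i j : ℂ) * pd j u y) x

/-- the function `x ↦ f (x₀ + i x₁) S (x)` -/
noncomputable def twist (S : E 4 → ℂ) (f : ℂ → ℂ) (x : E 4) : ℂ :=
  f ((x 0 : ℂ) + Complex.I * (x 1 : ℂ)) * S x

/-- There are a smooth, symmetric, uniformly elliptic, `ℤ⁴`-periodic matrix `A` on `ℝ⁴`, a number
`μ > 0` and a smooth function `S` such that `div (A ∇ u) = - μ u` holds for all the functions
`u = f (x₀ + i x₁) S`, `f` entire. One of them is nonzero, periodic in `x₂` and `x₃`, and decays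
with its gradient like a Gaussian in `x₀` and `x₁`; and for every `k ∈ ℂ²` one of them is a nonzero
Floquet solution with quasimomentum `k` in `x₀, x₁` and `0` in `x₂, x₃`. -/
theorem result : ∃ (A : E 4 → Matrix (Fin 4) (Fin 4) ℝ) (c μ : ℝ) (S : E 4 → ℂ),
    (∀ i j, ContDiff ℝ (⊤ : ℕ∞) fun x => A x i j) ∧ (∀ x, (A x).IsSymm) ∧ Periodic A ∧
    EllipticWith A c ∧ 0 < μ ∧ ContDiff ℝ (⊤ : ℕ∞) S ∧
    (∀ f : ℂ → ℂ, Differentiable ℂ f → ∀ x,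
      divGrad A (twist S f) x = -(μ : ℂ) * twist S f x) ∧
    (∃ f : ℂ → ℂ, Differentiable ℂ f ∧ twist S f ≠ 0 ∧
      (∀ (x : E 4) (n : Fin 4 → ℤ), n 0 = 0 → n 1 = 0 →
        twist S f (x + latE n) = twist S f x) ∧
      ∃ M : ℝ, ∀ x : E 4, ‖twist S f x‖ ≤ M * Real.exp (-(x 0 ^ 2 + x 1 ^ 2)) ∧
        ∀ j, ‖pd j (twist S f) x‖ ≤ M * Real.exp (-(x 0 ^ 2 + x 1 ^ 2))) ∧
    (∀ k : Fin 2 → ℂ, ∃ f : ℂ → ℂ, Differentiable ℂ f ∧ twist S f ≠ 0 ∧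
      ∀ (x : E 4) (n : Fin 4 → ℤ), twist S f (x + latE n) =
        Complex.exp (2 * Real.pi * Complex.I * (k 0 * (n 0 : ℂ) + k 1 * (n 1 : ℂ))) *
          twist S f x) := by
  obtain ⟨C, hC, hE⟩ := Pool.Agent.Lib.MP_c8757e_WG.exists_C
  refine ⟨Pool.Agent.Lib.MP_c8757e_WG.AA C, 1 / 4, 4 * Real.pi ^ 2 * C,
    Pool.Agent.Lib.MP_c8757e_WG.S, Pool.Agent.Lib.MP_c8757e_WG.AA_smooth C,
    Pool.Agent.Lib.MP_c8757e_WG.AA_symm C, Pool.Agent.Lib.MP_c8757e_WG.AA_per C, hE,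
    by positivity, Pool.Agent.Lib.MP_c8757e_WG.S_smooth,
    fun f hf x => Pool.Agent.Lib.MP_c8757e_WG.sol_pde hf C x,
    ⟨Pool.Agent.Lib.MP_c8757e_WG.fG, Pool.Agent.Lib.MP_c8757e_WG.fG_diff,
      Pool.Agent.Lib.MP_c8757e_WG.gauss_ne,
      fun x n h0 h1 => Pool.Agent.Lib.MP_c8757e_WG.sol_per _ x n h0 h1,
      Pool.Agent.Lib.MP_c8757e_WG.gauss_bd⟩,
    fun k => ⟨Pool.Agent.Lib.MP_c8757e_WG.fk k, Pool.Agent.Lib.MP_c8757e_WG.fk_diff k,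
      Pool.Agent.Lib.MP_c8757e_WG.fk_ne k,
      fun x n => Pool.Agent.Lib.MP_c8757e_WG.fk_floquet k x n⟩⟩

end Pool.Agent.Results.MP_c8757e_mp.WaveguideEigenvalue
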